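import Pool.Agent.Helper33.SymbolicDefect

/-!
# MP_6c3fc6_co : the second symbolic defects of independence complexes of bipartite graphs

For a bipartite graph `G` (in particular for every forest) the second symbolic defect polynomial
of the independence complex is `f_2 t^3 + f_3 t^4 + ... + f_d t^(d+1)`.
-/

namespace Pool.Agent.Results.MP_6c3fc6_co.BipartiteDefect

open MvPolynomial

/-- The faces of dimension `i` of the independence complex of `G`: the independent sets with
`i + 1` vertices. -/
def indFaces {n : ℕ} (G : SimpleGraph (Fin n)) (i : ℕ) : Set (Finset (Fin n)) :=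
  {F | G.IsIndepSet (F : Set (Fin n)) ∧ F.card = i + 1}

/-- The facet ideal of `Δ^[i]`, `Δ = Ind(G)`: the ideal of `K[x_1, …, x_n]` generated by the
monomials `x_F`, `F` a face of `Δ` of dimension `i`. -/
noncomputable def facetIdealSkeleton {n : ℕ} (K : Type) [Field K] (G : SimpleGraph (Fin n))
    (i : ℕ) : Ideal (MvPolynomial (Fin n) K) :=
  Ideal.span {p | ∃ F ∈ indFaces G i, p = ∏ v ∈ F, X v}

/-- The symbolic power `I^(m)` of a squarefree monomial ideal `I`: the intersection of the `m`-th
powers of the minimal primes of `I`. -/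
noncomputable def symbolicPower {S : Type} [CommRing S] (I : Ideal S) (m : ℕ) : Ideal S :=
  ⨅ P ∈ I.minimalPrimes, P ^ m

/-- The symbolic defect `sdefect (I, m)`: the minimal number of generators of the `S`-module
`I^(m) / I^m`. -/
noncomputable def sdefect {S : Type} [CommRing S] (I : Ideal S) (m : ℕ) : ℕ :=
  (⊤ : Submodule S (↥(symbolicPower I m) ⧸
    Submodule.comap (symbolicPower I m).subtype (I ^ m))).spanFinrank

/-- **Theorem.**  Let `G` be a finite bipartite graph (for instance a forest), `Δ = Ind(G)` and
`i ≥ 1`.  Then `c_{i+1} = sdefect (F(Δ^[i]), 2)` is the number `f_{i+1}` of faces of `Δ` of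
dimension `i + 1`. -/
theorem result {n : ℕ} (K : Type) [Field K] (G : SimpleGraph (Fin n)) (hG : G.IsBipartite)
    (i : ℕ) (hi : 1 ≤ i) :
    sdefect (facetIdealSkeleton K G i) 2 = (indFaces G (i + 1)).ncard := by
  obtain ⟨C⟩ := hG
  exact Pool.Agent.Helper33.sdefect_eq (K := K) G (i + 1) (fun v => decide (C v = 0)) (by
    intro u v huv h
    have h1 := C.valid huv
    apply h1
    by_cases hu : C u = 0
    · by_cases hv : C v = 0
      · rw [hu, hv]
      · simp [hu, hv] at h
    · by_cases hv : C v = 0
      · simp [hu, hv] at h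
      · omega) (by omega)

end Pool.Agent.Results.MP_6c3fc6_co.BipartiteDefect
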