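import Pool.Agent.Helper33.SymbolicDefect
import Pool.Agent.Helper56.FU.Main

/-!
# MP_6c3fc6_co : all forests with at least `10 ^ 1000000` vertices

Q1 holds for all but finitely many forests, with an explicit bound: for every forest with at least
`10 ^ 1000000` vertices and every field `K` the coefficient sequence of the second symbolic defect polynomial of
the independence complex is unimodal and has no internal zeros.
-/

set_option autoImplicit false

namespace Pool.Agent.Results.MP_6c3fc6_co.LargeForests

open MvPolynomial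

/-- The faces of dimension `i` of the independence complex of `G`: the independent sets with
`i + 1` vertices. -/
def indFaces {n : ℕ} (G : SimpleGraph (Fin n)) (i : ℕ) : Set (Finset (Fin n)) :=
  {F | G.IsIndepSet (F : Set (Fin n)) ∧ F.card = i + 1}

/-- The facet ideal of `Δ^[i]`, `Δ = Ind(G)`: the ideal of `K[x_1, …, x_n]` generated by the
monomials `x_F`, `F` a face of `Δ` of dimension `i`. -/
noncomputable def facetIdealSkeleton {n : ℕ} (K : Type) [Field K] (G : SimpleGraph (Fin n))
    (i : ℕ) : Ideal (MvPolynomial (Fin n) K) :=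
  Ideal.span {p | ∃ F ∈ indFaces G i, p = ∏ v ∈ F, X v}

/-- The symbolic power `I^(m)` of a squarefree monomial ideal `I`: the intersection of the `m`-th
powers of the minimal primes of `I`. -/
noncomputable def symbolicPower {S : Type} [CommRing S] (I : Ideal S) (m : ℕ) : Ideal S :=
  ⨅ P ∈ I.minimalPrimes, P ^ m

/-- The symbolic defect `sdefect (I, m)`: the minimal number of generators of the `S`-module
`I^(m) / I^m`. -/
noncomputable def sdefect {S : Type} [CommRing S] (I : Ideal S) (m : ℕ) : ℕ :=
  (⊤ : Submodule S (↥(symbolicPower I m) ⧸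
    Submodule.comap (symbolicPower I m).subtype (I ^ m))).spanFinrank

/-- The dimension `d` of the independence complex of `G`: one less than the maximal number of vertices of an
independent set. -/
noncomputable def dimInd {n : ℕ} (G : SimpleGraph (Fin n)) : ℕ := G.indepNum - 1

/-- The coefficient `c_j` (`2 ≤ j ≤ d`) of `μ_2(Ind(G), t) = c_2 t^3 + ... + c_d t^(d+1)`. -/
noncomputable def coef {n : ℕ} (K : Type) [Field K] (G : SimpleGraph (Fin n)) (j : ℕ) : ℕ :=
  sdefect (facetIdealSkeleton K G (j - 1)) 2

/-- The sequence `a_l, ..., a_u` is unimodal. -/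
def Unimodal (a : ℕ → ℕ) (l u : ℕ) : Prop :=
  ∃ k, l ≤ k ∧ k ≤ u ∧ (∀ i, l ≤ i → i < k → a i ≤ a (i + 1)) ∧ ∀ i, k ≤ i → i < u → a (i + 1) ≤ a i

/-- The sequence `a_l, ..., a_u` has no internal zeros. -/
def NoInternalZeros (a : ℕ → ℕ) (l u : ℕ) : Prop :=
  ∀ p q r, l ≤ p → p < q → q < r → r ≤ u → a p ≠ 0 → a r ≠ 0 → a q ≠ 0

/-- The number of independent sets of `G` with `k` vertices. -/
private noncomputable def indCount {n : ℕ} (G : SimpleGraph (Fin n)) (k : ℕ) : ℕ :=
  {F : Finset (Fin n) | G.IsIndepSet (F : Set (Fin n)) ∧ F.card = k}.ncard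

private theorem coef_eq {n : ℕ} (K : Type) [Field K] (G : SimpleGraph (Fin n)) (hG : G.IsAcyclic) {j : ℕ}
    (hj : 2 ≤ j) : coef K G j = indCount G (j + 1) := by
  obtain ⟨C⟩ := hG.isBipartite
  have h := Pool.Agent.Helper33.sdefect_eq (K := K) G j (fun v => decide (C v = 0)) (by
    intro u v huv h
    have h1 := C.valid huv
    apply h1
    by_cases hu : C u = 0
    · by_cases hv : C v = 0
      · rw [hu, hv]
      · simp [hu, hv] at h
    · by_cases hv : C v = 0
      · simp [hu, hv] at h
      · omega) hj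
  have h2 : coef K G j = sdefect (facetIdealSkeleton K G (j - 1)) 2 := rfl
  rw [h2]
  obtain ⟨i, rfl⟩ : ∃ i, j = i + 1 := ⟨j - 1, by omega⟩
  exact h

private theorem isIndep_iff {n : ℕ} (G : SimpleGraph (Fin n)) (S : Finset (Fin n)) :
    G.IsIndepSet (S : Set (Fin n)) ↔ S ∈ FU.ind G := by
  rw [FU.mem_ind]
  constructor
  · intro h a ha b hb hab
    exact h ha hb hab.ne hab
  · intro h a ha b hb _
    exact h a ha b hb

private theorem indCount_eq {n : ℕ} (G : SimpleGraph (Fin n)) (k : ℕ) : indCount G k = FU.cf G k := by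
  classical
  unfold indCount FU.cf
  rw [← Set.ncard_coe_finset]
  congr 1
  ext S
  simp only [Set.mem_ofPred_eq, Finset.coe_filter]
  rw [isIndep_iff]

private theorem indepNum_eq {n : ℕ} (G : SimpleGraph (Fin n)) : G.indepNum = FU.alp G := by
  apply le_antisymm
  · obtain ⟨S, hS⟩ := G.exists_isNIndepSet_indepNum
    rw [← hS.card_eq]
    exact FU.le_alp G ((isIndep_iff G S).1 hS.isIndepSet)
  · obtain ⟨A, hA, hAc⟩ := FU.exists_max G
    rw [← hAc]
    exact SimpleGraph.IsIndepSet.card_le_indepNum ((isIndep_iff G A).2 hA)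

/-- **Theorem.**  Let `G` be a forest with `n ≥ 10 ^ 1000000` vertices and `K` a field.
The coefficient sequence `(c_2, ..., c_d)` of `μ_2(Ind(G), t)` is unimodal and has no internal zeros. -/
theorem result (n : ℕ) (G : SimpleGraph (Fin n)) (hG : G.IsAcyclic) (hn : 10 ^ 1000000 ≤ n)
    (K : Type) [Field K] :
    Unimodal (coef K G) 2 (dimInd G) ∧ NoInternalZeros (coef K G) 2 (dimInd G) := by
  have hn6 : 6 ≤ n := by
    refine le_trans ?_ hn
    calc 6 ≤ 10 ^ 1 := by norm_num
      _ ≤ 10 ^ 1000000 := Nat.pow_le_pow_right (by norm_num) (by norm_num)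
  have hn' : FU.n0 ≤ n := hn
  clear hn
  obtain ⟨h1, _, m, hm1, hm2⟩ := FU.main (Fin n) G hG (by rw [Fintype.card_fin]; exact hn')
  have hα : 3 ≤ FU.alp G := by
    obtain ⟨A, hA, hAc⟩ := FU.exists_max G
    have h2 := FU.card_compl_le hG hAc
    have h3 := Finset.card_add_card_compl A
    rw [Fintype.card_fin] at h3
    omega
  have hmα : m ≤ FU.alp G := by
    by_contra hcon
    have h2 := hm1 (FU.alp G) (by omega)
    have h3 := FU.cf_zero_of_lt G (k := FU.alp G + 1) (by omega)
    have h4 := FU.cf_pos G (k := FU.alp G) le_rfl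
    omega
  refine ⟨?_, ?_⟩
  · unfold Unimodal dimInd
    rw [indepNum_eq]
    refine ⟨max 2 (m - 1), le_max_left _ _, max_le (by omega) (by omega), ?_, ?_⟩
    · intro i hi hi2
      rw [coef_eq K G hG hi, coef_eq K G hG (by omega), indCount_eq, indCount_eq]
      apply hm1
      have := lt_max_iff.1 hi2
      omega
    · intro i hi hi2
      have hi3 : 2 ≤ i := (le_max_left _ _).trans hi
      have hi4 : m - 1 ≤ i := (le_max_right _ _).trans hi
      rw [coef_eq K G hG hi3, coef_eq K G hG (by omega), indCount_eq, indCount_eq]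
      apply hm2
      omega
  · unfold NoInternalZeros dimInd
    rw [indepNum_eq]
    intro p q r hp hpq hqr hr _ _
    rw [coef_eq K G hG (by omega), indCount_eq]
    exact (FU.cf_pos G (by omega)).ne'

end Pool.Agent.Results.MP_6c3fc6_co.LargeForests
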