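import Pool.Agent.Helper56.FU.Main

/-!
# MP_6c3fc6_co : log-concavity of the first two thirds of the independent set sequence of a large forest

For every forest `G` with at least `10 ^ 1000000` vertices and independence number `α` the numbers `i_k` of
independent sets with `k` vertices satisfy `i_(k-1) i_(k+1) ≤ i_k ^ 2` for `1 ≤ k ≤ 2 α / 3`.
-/

set_option autoImplicit false

namespace Pool.Agent.Results.MP_6c3fc6_co.LargeForestsLogConcave

/-- The number of independent sets of `G` with `k` vertices. -/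
noncomputable def indCount {n : ℕ} (G : SimpleGraph (Fin n)) (k : ℕ) : ℕ :=
  {F : Finset (Fin n) | G.IsIndepSet (F : Set (Fin n)) ∧ F.card = k}.ncard

private theorem isIndep_iff {n : ℕ} (G : SimpleGraph (Fin n)) (S : Finset (Fin n)) :
    G.IsIndepSet (S : Set (Fin n)) ↔ S ∈ FU.ind G := by
  rw [FU.mem_ind]
  constructor
  · intro h a ha b hb hab
    exact h ha hb hab.ne hab
  · intro h a ha b hb _
    exact h a ha b hb

private theorem indCount_eq {n : ℕ} (G : SimpleGraph (Fin n)) (k : ℕ) : indCount G k = FU.cf G k := by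
  classical
  unfold indCount FU.cf
  rw [← Set.ncard_coe_finset]
  congr 1
  ext S
  simp only [Set.mem_ofPred_eq, Finset.coe_filter]
  rw [isIndep_iff]

private theorem indepNum_eq {n : ℕ} (G : SimpleGraph (Fin n)) : G.indepNum = FU.alp G := by
  apply le_antisymm
  · obtain ⟨S, hS⟩ := G.exists_isNIndepSet_indepNum
    rw [← hS.card_eq]
    exact FU.le_alp G ((isIndep_iff G S).1 hS.isIndepSet)
  · obtain ⟨A, hA, hAc⟩ := FU.exists_max G
    rw [← hAc]
    exact SimpleGraph.IsIndepSet.card_le_indepNum ((isIndep_iff G A).2 hA)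

/-- **Theorem.**  Let `G` be a forest with `n ≥ 10 ^ 1000000` vertices.  The numbers `i_k` of independent sets with
`k` vertices satisfy `i_(k-1) i_(k+1) ≤ i_k ^ 2` for `1 ≤ k ≤ 2 α(G) / 3`. -/
theorem result (n : ℕ) (G : SimpleGraph (Fin n)) (hG : G.IsAcyclic) (hn : 10 ^ 1000000 ≤ n) (k : ℕ)
    (hk : 1 ≤ k) (hkα : 3 * k ≤ 2 * G.indepNum) :
    indCount G (k - 1) * indCount G (k + 1) ≤ indCount G k ^ 2 := by
  have hn' : FU.n0 ≤ n := hn
  clear hn
  obtain ⟨h1, _⟩ := FU.main (Fin n) G hG (by rw [Fintype.card_fin]; exact hn')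
  rw [indepNum_eq] at hkα
  rw [indCount_eq, indCount_eq, indCount_eq]
  exact h1 k hk hkα

end Pool.Agent.Results.MP_6c3fc6_co.LargeForestsLogConcave
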